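import Mathlib

open Filter Topology UniformSpace

namespace Pool.Agent.H.MP_6f1842_lc

universe u

/-- A unitary operator on a complex Hilbert space together with a unit vector. -/
structure Rep where
  H : Type u
  [n : NormedAddCommGroup H]
  [i : InnerProductSpace ℂ H]
  [c : CompleteSpace H]
  U : H ≃ₗᵢ[ℂ] H
  x : H
  hx : ‖x‖ = 1

attribute [instance] Rep.n Rep.i Rep.c

theorem zpow_comm {E F : Type*} [NormedAddCommGroup E] [NormedSpace ℂ E]
    [NormedAddCommGroup F] [NormedSpace ℂ F] (U : E ≃ₗᵢ[ℂ] E) (W : F ≃ₗᵢ[ℂ] F) (j : E → F)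
    (h : ∀ y, j (U y) = W (j y)) (n : ℤ) : ∀ y, j ((U ^ n) y) = (W ^ n) (j y) := by
  have h' : ∀ y, j (U⁻¹ y) = W⁻¹ (j y) := by
    intro y
    have := h (U⁻¹ y)
    have e : U (U⁻¹ y) = y := U.apply_symm_apply y
    rw [e] at this
    rw [this]
    exact (W.symm_apply_apply _).symm
  induction n using Int.induction_on with
  | zero => intro y; simp
  | succ n ih =>
    intro y
    rw [zpow_add_one, zpow_add_one, LinearIsometryEquiv.coe_mul, LinearIsometryEquiv.coe_mul]
    simp only [Function.comp_apply]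
    rw [ih, h]
  | pred n ih =>
    intro y
    rw [zpow_sub_one, zpow_sub_one, LinearIsometryEquiv.coe_mul, LinearIsometryEquiv.coe_mul]
    simp only [Function.comp_apply]
    rw [ih, h']

noncomputable def T (r : Rep.{u}) : (ℤ →₀ ℂ) →ₗ[ℂ] r.H :=
  Finsupp.linearCombination ℂ (fun n : ℤ => (r.U ^ n) r.x)

theorem T_single (r : Rep.{u}) (n : ℤ) (a : ℂ) :
    T r (Finsupp.single n a) = a • (r.U ^ n) r.x := by
  simp [T]

noncomputable def sh (k : ℤ) : (ℤ →₀ ℂ) →ₗ[ℂ] (ℤ →₀ ℂ) := Finsupp.lmapDomain ℂ ℂ (fun n => k + n)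

theorem sh_single (k n : ℤ) (a : ℂ) : sh k (Finsupp.single n a) = Finsupp.single (k + n) a := by
  simp [sh]

theorem sh_sh (k l : ℤ) (h : k + l = 0) (f : ℤ →₀ ℂ) : sh k (sh l f) = f := by
  induction f using Finsupp.induction_linear with
  | zero => simp
  | add f g hf hg => rw [map_add, map_add, hf, hg]
  | single n a => rw [sh_single, sh_single, ← add_assoc, h, zero_add]

theorem T_sh (r : Rep.{u}) (k : ℤ) (f : ℤ →₀ ℂ) : T r (sh k f) = (r.U ^ k) (T r f) := by
  induction f using Finsupp.induction_linear with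
  | zero => simp
  | add f g hf hg => rw [map_add, map_add, hf, hg, map_add, map_add]
  | single n a =>
    rw [sh_single, T_single, T_single, map_smul, zpow_add, LinearIsometryEquiv.coe_mul]
    rfl

theorem T_bdd (f : ℤ →₀ ℂ) : ∃ C : ℝ, ∀ r : Rep.{u}, ‖T r f‖ ≤ C := by
  induction f using Finsupp.induction_linear with
  | zero => exact ⟨0, fun r => by simp⟩
  | add f g hf hg =>
    obtain ⟨C, hC⟩ := hf
    obtain ⟨D, hD⟩ := hg
    refine ⟨C + D, fun r => ?_⟩
    rw [map_add]
    exact (norm_add_le _ _).trans (add_le_add (hC r) (hD r))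
  | single n a =>
    refine ⟨‖a‖, fun r => ?_⟩
    rw [T_single, norm_smul, LinearIsometryEquiv.norm_map, r.hx, mul_one]

theorem ex_lim (r : ℕ → Rep.{u}) (f g : ℤ →₀ ℂ) : ∃ z : ℂ,
    Tendsto (fun m => (inner ℂ (T (r m) f) (T (r m) g) : ℂ)) (hyperfilter ℕ) (𝓝 z) := by
  obtain ⟨C, hC⟩ := T_bdd.{u} f
  obtain ⟨D, hD⟩ := T_bdd.{u} g
  have hk : IsCompact (Metric.closedBall (0 : ℂ) (C * D)) := isCompact_closedBall _ _
  obtain ⟨z, -, hz⟩ := hk.ultrafilter_le_nhds
    ((hyperfilter ℕ).map (fun m => (inner ℂ (T (r m) f) (T (r m) g) : ℂ))) (by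
      rw [le_principal_iff, Ultrafilter.mem_coe, Ultrafilter.mem_map]
      refine Filter.univ_mem' fun m => ?_
      simp only [Set.mem_preimage, mem_closedBall_zero_iff]
      exact (norm_inner_le_norm _ _).trans (mul_le_mul (hC _) (hD _) (norm_nonneg _)
        ((norm_nonneg _).trans (hC (r m)))))
  exact ⟨z, hz⟩

noncomputable def B (r : ℕ → Rep.{u}) (f g : ℤ →₀ ℂ) : ℂ := (ex_lim r f g).choose

theorem B_lim (r : ℕ → Rep.{u}) (f g : ℤ →₀ ℂ) :
    Tendsto (fun m => (inner ℂ (T (r m) f) (T (r m) g) : ℂ)) (hyperfilter ℕ) (𝓝 (B r f g)) :=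
  (ex_lim r f g).choose_spec

def V (_r : ℕ → Rep.{u}) : Type u := ULift.{u} (ℤ →₀ ℂ)

noncomputable instance (r : ℕ → Rep.{u}) : AddCommGroup (V r) :=
  inferInstanceAs (AddCommGroup (ULift.{u} (ℤ →₀ ℂ)))

noncomputable instance (r : ℕ → Rep.{u}) : Module ℂ (V r) :=
  inferInstanceAs (Module ℂ (ULift.{u} (ℤ →₀ ℂ)))

noncomputable def dn (r : ℕ → Rep.{u}) : V r ≃ₗ[ℂ] (ℤ →₀ ℂ) := ULift.moduleEquiv

noncomputable def core (r : ℕ → Rep.{u}) : PreInnerProductSpace.Core ℂ (V r) where
  inner f g := B r (dn r f) (dn r g)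
  conj_inner_symm f g := by
    refine tendsto_nhds_unique (l := (hyperfilter ℕ : Filter ℕ)) ?_ (B_lim r _ _)
    have := (Complex.continuous_conj.tendsto _).comp (B_lim r (dn r g) (dn r f))
    refine this.congr fun m => ?_
    exact inner_conj_symm _ _
  re_inner_nonneg f := by
    have := (Complex.continuous_re.tendsto _).comp (B_lim r (dn r f) (dn r f))
    refine ge_of_tendsto' this fun m => ?_
    exact inner_self_nonneg (𝕜 := ℂ)
  add_left f g h := by
    refine tendsto_nhds_unique (l := (hyperfilter ℕ : Filter ℕ)) (B_lim r _ _) ?_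
    refine ((B_lim r (dn r f) (dn r h)).add (B_lim r (dn r g) (dn r h))).congr fun m => ?_
    rw [map_add, map_add, inner_add_left]
  smul_left f g a := by
    refine tendsto_nhds_unique (l := (hyperfilter ℕ : Filter ℕ)) (B_lim r _ _) ?_
    refine ((B_lim r (dn r f) (dn r g)).const_mul ((starRingEnd ℂ) a)).congr fun m => ?_
    rw [map_smul, map_smul, inner_smul_left]

noncomputable instance (r : ℕ → Rep.{u}) : SeminormedAddCommGroup (V r) :=
  @InnerProductSpace.Core.toSeminormedAddCommGroup ℂ (V r) _ _ _ (core r)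

noncomputable instance (r : ℕ → Rep.{u}) : InnerProductSpace ℂ (V r) :=
  InnerProductSpace.ofCore (core r)

theorem inner_V (r : ℕ → Rep.{u}) (f g : V r) : inner ℂ f g = B r (dn r f) (dn r g) := rfl

theorem norm_lim (r : ℕ → Rep.{u}) (f : V r) :
    Tendsto (fun m => ‖T (r m) (dn r f)‖) (hyperfilter ℕ) (𝓝 ‖f‖) := by
  have h1 := (Complex.continuous_re.tendsto _).comp (B_lim r (dn r f) (dn r f))
  have h2 := (Real.continuous_sqrt.tendsto _).comp h1
  rw [← inner_V] at h2
  rw [norm_eq_sqrt_re_inner (𝕜 := ℂ) f]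
  refine h2.congr fun m => ?_
  exact (norm_eq_sqrt_re_inner (𝕜 := ℂ) _).symm

noncomputable def S0 (r : ℕ → Rep.{u}) (k : ℤ) : V r →ₗ[ℂ] V r :=
  (dn r).symm.toLinearMap ∘ₗ sh k ∘ₗ (dn r).toLinearMap

theorem dn_S0 (r : ℕ → Rep.{u}) (k : ℤ) (f : V r) : dn r (S0 r k f) = sh k (dn r f) := by
  simp [S0]

theorem norm_S0 (r : ℕ → Rep.{u}) (k : ℤ) (f : V r) : ‖S0 r k f‖ = ‖f‖ := by
  refine tendsto_nhds_unique (l := (hyperfilter ℕ : Filter ℕ)) (norm_lim r _) ?_
  refine (norm_lim r f).congr fun m => ?_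
  rw [dn_S0, T_sh, LinearIsometryEquiv.norm_map]

noncomputable def S1 (r : ℕ → Rep.{u}) (k : ℤ) : V r →L[ℂ] V r :=
  (S0 r k).mkContinuous 1 fun f => by rw [norm_S0, one_mul]

noncomputable def S2 (r : ℕ → Rep.{u}) (k : ℤ) : Completion (V r) →L[ℂ] Completion (V r) :=
  (S1 r k).completion

theorem S2_coe (r : ℕ → Rep.{u}) (k : ℤ) (f : V r) :
    S2 r k (f : Completion (V r)) = (S0 r k f : V r) :=
  (S1 r k).completion_apply_coe f

theorem norm_S2 (r : ℕ → Rep.{u}) (k : ℤ) (y : Completion (V r)) : ‖S2 r k y‖ = ‖y‖ := by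
  induction y using Completion.induction_on with
  | hp => exact isClosed_eq (by fun_prop) (by fun_prop)
  | ih f => rw [S2_coe, Completion.norm_coe, Completion.norm_coe, norm_S0]

theorem S2_S2 (r : ℕ → Rep.{u}) (k l : ℤ) (h : k + l = 0) (y : Completion (V r)) :
    S2 r k (S2 r l y) = y := by
  induction y using Completion.induction_on with
  | hp => exact isClosed_eq (by fun_prop) (by fun_prop)
  | ih f =>
    rw [S2_coe, S2_coe]
    congr 1
    apply (dn r).injective
    rw [dn_S0, dn_S0, sh_sh k l h]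

noncomputable def S3 (r : ℕ → Rep.{u}) : Completion (V r) ≃ₗᵢ[ℂ] Completion (V r) where
  toFun := S2 r 1
  invFun := S2 r (-1)
  map_add' := map_add _
  map_smul' := map_smul _
  left_inv := S2_S2 r _ _ (by simp)
  right_inv := S2_S2 r _ _ (by simp)
  norm_map' := norm_S2 r 1

theorem S3_zpow (r : ℕ → Rep.{u}) (n : ℤ) :
    (S3 r ^ n) (((dn r).symm (Finsupp.single 0 1) : V r) : Completion (V r))
      = (((dn r).symm (Finsupp.single n 1) : V r) : Completion (V r)) := by
  have key : ∀ k m : ℤ, S2 r k (((dn r).symm (Finsupp.single m 1) : V r) : Completion (V r))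
      = (((dn r).symm (Finsupp.single (k + m) 1) : V r) : Completion (V r)) := by
    intro k m
    rw [S2_coe]
    congr 1
    apply (dn r).injective
    rw [dn_S0, LinearEquiv.apply_symm_apply, LinearEquiv.apply_symm_apply, sh_single]
  induction n using Int.induction_on with
  | zero => simp
  | succ n ih =>
    rw [add_comm, zpow_add, zpow_one, LinearIsometryEquiv.coe_mul]
    simp only [Function.comp_apply]
    rw [ih]
    exact key 1 n
  | pred n ih =>
    rw [sub_eq_neg_add, zpow_add, zpow_neg_one, LinearIsometryEquiv.coe_mul]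
    simp only [Function.comp_apply]
    rw [ih]
    exact key (-1) _

noncomputable def lim (r : ℕ → Rep.{u}) : Rep.{u} where
  H := Completion (V r)
  U := S3 r
  x := (((dn r).symm (Finsupp.single 0 1) : V r) : Completion (V r))
  hx := by
    rw [Completion.norm_coe]
    refine tendsto_nhds_unique (l := (hyperfilter ℕ : Filter ℕ)) (norm_lim r _) ?_
    refine tendsto_const_nhds.congr fun m => ?_
    rw [LinearEquiv.apply_symm_apply, T_single]
    simp [(r m).hx]

theorem T_lim (r : ℕ → Rep.{u}) (f : ℤ →₀ ℂ) :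
    T (lim r) f = (((dn r).symm f : V r) : Completion (V r)) := by
  induction f using Finsupp.induction_linear with
  | zero => rw [map_zero, map_zero]; rfl
  | add f g hf hg => rw [map_add, map_add, hf, hg, Completion.coe_add]; rfl
  | single n a =>
    rw [T_single]
    have : Finsupp.single n a = a • Finsupp.single n (1 : ℂ) := by simp
    rw [this, map_smul, Completion.coe_smul, ← S3_zpow]
    rfl

theorem gns (r : ℕ → Rep.{u}) : ∃ s : Rep.{u}, ∀ f : ℤ →₀ ℂ,
    Tendsto (fun m => ‖T (r m) f‖) (hyperfilter ℕ) (𝓝 ‖T s f‖) := by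
  refine ⟨lim r, fun f => ?_⟩
  have := norm_lim r ((dn r).symm f)
  rw [LinearEquiv.apply_symm_apply] at this
  rw [T_lim]
  have e : ‖((((dn r).symm f : V r)) : Completion (V r))‖ = ‖((dn r).symm f : V r)‖ :=
    Completion.norm_coe _
  rw [← e] at this
  exact this

end Pool.Agent.H.MP_6f1842_lc
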