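import Mathlib

namespace Pool.Agent.H.MP_6f1842_lc

universe u

/-- `Q` is a Kazhdan subset of the integers. -/
def Kazhdan (Q : Set ℤ) : Prop :=
  ∃ ε : ℝ, 0 < ε ∧ ∀ (H : Type u) [NormedAddCommGroup H] [InnerProductSpace ℂ H]
    [CompleteSpace H] (U : H ≃ₗᵢ[ℂ] H) (x : H), ‖x‖ = 1 →
      (⨆ n : Q, ‖(U ^ (n : ℤ)) x - x‖) < ε → ∃ y : H, y ≠ 0 ∧ U y = y

/-- `Q` generates the group of integers. -/
def Generating (Q : Set ℤ) : Prop := AddSubgroup.closure Q = ⊤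

end Pool.Agent.H.MP_6f1842_lc
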