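import Pool.Agent.H.MP_6f1842_lc.A
import Pool.Agent.H.MP_6f1842_lc.Defs

open Filter Topology MeasureTheory

namespace Pool.Agent.H.MP_6f1842_lc

universe u

noncomputable def av (N : ℕ) : ℤ →₀ ℂ :=
  (N : ℂ)⁻¹ • ∑ n ∈ Finset.range N, Finsupp.single (n : ℤ) (1 : ℂ)

theorem T_av (r : Rep.{u}) (N : ℕ) :
    T r (av N) = (N : ℂ)⁻¹ • ∑ n ∈ Finset.range N, (r.U ^ (n : ℤ)) r.x := by
  rw [av, map_smul, map_sum]
  simp only [T_single, one_smul]

noncomputable def df (n : ℤ) : ℤ →₀ ℂ := Finsupp.single n 1 - Finsupp.single 0 1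

theorem T_df (r : Rep.{u}) (n : ℤ) : T r (df n) = (r.U ^ n) r.x - r.x := by
  rw [df, map_sub, T_single, T_single]
  simp

def A (ε : ℝ) (N : ℕ) : Set (ℤ → Bool) :=
  {c | ∃ r : Rep.{u}, (∀ n, c n = true → ‖T r (df n)‖ ≤ ε) ∧ ‖T r (av N)‖ ≤ 1 / 2}

theorem closed_A (ε : ℝ) (N : ℕ) : IsClosed (A.{u} ε N) := by
  refine isClosed_of_closure_subset fun c hc => ?_
  obtain ⟨s, hs, hl⟩ := mem_closure_iff_seq_limit.1 hc
  choose r hr1 hr2 using hs
  obtain ⟨t, ht⟩ := gns r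
  refine ⟨t, fun n hn => ?_, le_of_tendsto' (ht _) hr2⟩
  refine le_of_tendsto (ht _) ?_
  have h1 : Tendsto (fun m => s m n) atTop (𝓝 (c n)) := (tendsto_pi_nhds.1 hl) n
  rw [nhds_discrete, tendsto_pure] at h1
  have h2 : ∀ᶠ m in (hyperfilter ℕ : Filter ℕ), s m n = c n :=
    (Nat.hyperfilter_le_atTop) h1
  filter_upwards [h2] with m hm
  exact hr1 m n (hm.trans hn)

theorem av_tendsto (r : Rep.{u}) (h : ∀ y : r.H, r.U y = y → y = 0) :
    Tendsto (fun N => T r (av N)) atTop (𝓝 0) := by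
  let f : r.H →L[ℂ] r.H := r.U.toLinearIsometry.toContinuousLinearMap
  have hf : ‖f‖ ≤ 1 := r.U.toLinearIsometry.norm_toContinuousLinearMap_le
  have := f.tendsto_birkhoffAverage_orthogonalProjection hf r.x
  have e : (((f.eqLocus (1 : r.H →L[ℂ] r.H)).orthogonalProjectionOnto r.x : _) : r.H) = 0 :=
    h _ ((f.eqLocus (1 : r.H →L[ℂ] r.H)).orthogonalProjectionOnto r.x).2
  rw [e] at this
  refine this.congr fun N => ?_
  rw [T_av, birkhoffAverage, birkhoffSum]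
  congr 1
  refine Finset.sum_congr rfl fun n _ => ?_
  rw [zpow_natCast]
  simp only [id]
  induction n with
  | zero => simp
  | succ n ih =>
    rw [Function.iterate_succ_apply', pow_succ', LinearIsometryEquiv.coe_mul,
      Function.comp_apply, ← ih (by simp_all; omega)]
    rfl

theorem strip (r : Rep.{u}) (N : ℕ) (hN : 0 < N) (h : ‖T r (av N)‖ ≤ 1 / 2) :
    ∃ s : Rep.{u}, (∀ y : s.H, s.U y = y → y = 0) ∧ ∀ n, ‖T s (df n)‖ ≤ 2 * ‖T r (df n)‖ := by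
  let F : Submodule ℂ r.H := LinearMap.ker
    ((r.U.toLinearIsometry.toContinuousLinearMap - 1 : r.H →L[ℂ] r.H) : r.H →ₗ[ℂ] r.H)
  have hF : ∀ y, y ∈ F ↔ r.U y = y := by
    intro y
    simp [F, sub_eq_zero]
  have hcl : IsClosed (F : Set r.H) :=
    (r.U.toLinearIsometry.toContinuousLinearMap - 1 : r.H →L[ℂ] r.H).isClosed_ker
  haveI : CompleteSpace F := hcl.completeSpace_coe
  have hz : ∀ y ∈ F, ∀ n : ℤ, (r.U ^ n) y = y := by
    intro y hy n
    have := zpow_comm (1 : r.H ≃ₗᵢ[ℂ] r.H) r.U (fun _ => y) (fun _ => ((hF y).1 hy).symm) n y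
    exact this.symm
  have hK : ∀ n : ℤ, ∀ y ∈ Fᗮ, (r.U ^ n) y ∈ Fᗮ := by
    intro n y hy
    rw [Submodule.mem_orthogonal] at hy ⊢
    intro z hz'
    rw [← hz z hz' n, LinearIsometryEquiv.inner_map_map]
    exact hy z hz'
  let W : Fᗮ ≃ₗᵢ[ℂ] Fᗮ :=
    { toFun := fun y => ⟨r.U y, by simpa using hK 1 y y.2⟩
      invFun := fun y => ⟨r.U.symm y, by simpa using hK (-1) y y.2⟩
      map_add' := fun a b => Subtype.ext (by simp)
      map_smul' := fun a b => Subtype.ext (by simp)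
      left_inv := fun y => Subtype.ext (by simp)
      right_inv := fun y => Subtype.ext (by simp)
      norm_map' := fun y => by simp }
  have hW : ∀ (n : ℤ) (y : Fᗮ), (((W ^ n) y : Fᗮ) : r.H) = (r.U ^ n) (y : r.H) :=
    fun n y => zpow_comm W r.U (fun y => (y : r.H)) (fun _ => rfl) n y
  obtain ⟨p, hp, q, hq, hx⟩ := F.exists_add_mem_mem_orthogonal r.x
  have hNc : (N : ℂ) ≠ 0 := by exact_mod_cast hN.ne'
  have hp2 : ‖p‖ ≤ 1 / 2 := by
    have e : T r (av N) = p + (N : ℂ)⁻¹ • ∑ n ∈ Finset.range N, (r.U ^ (n : ℤ)) q := by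
      rw [T_av, hx]
      simp only [map_add, hz p hp, Finset.sum_add_distrib, Finset.sum_const, Finset.card_range,
        smul_add]
      congr 1
      rw [← Nat.cast_smul_eq_nsmul ℂ, smul_smul, inv_mul_cancel₀ hNc, one_smul]
    have hq' : (N : ℂ)⁻¹ • ∑ n ∈ Finset.range N, (r.U ^ (n : ℤ)) q ∈ Fᗮ :=
      Submodule.smul_mem _ _ (Submodule.sum_mem _ fun n _ => hK _ q hq)
    have h0 := (Submodule.mem_orthogonal _ _).1 hq' p hp
    have h1 := norm_add_sq_eq_norm_sq_add_norm_sq_of_inner_eq_zero _ _ h0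
    rw [← e] at h1
    nlinarith [norm_nonneg p, norm_nonneg (T r (av N)),
      mul_self_nonneg ‖(N : ℂ)⁻¹ • ∑ n ∈ Finset.range N, (r.U ^ (n : ℤ)) q‖]
  have hq2 : 1 / 2 ≤ ‖q‖ := by
    have := norm_add_le p q
    rw [← hx, r.hx] at this
    linarith
  have hq0 : ‖q‖ ≠ 0 := by linarith
  have hx1 : ‖(((‖q‖⁻¹ : ℝ) : ℂ) • ⟨q, hq⟩ : Fᗮ)‖ = 1 := by
    rw [norm_smul, Complex.norm_real, norm_inv, norm_norm]
    exact inv_mul_cancel₀ hq0
  refine ⟨{ H := Fᗮ, U := W, x := ((‖q‖⁻¹ : ℝ) : ℂ) • ⟨q, hq⟩, hx := hx1 }, ?_, ?_⟩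
  · intro y hy
    have h1 : (y : r.H) ∈ F := (hF _).2 (congrArg Subtype.val hy)
    have h2 := (Submodule.mem_orthogonal _ _).1 y.2 _ h1
    exact Subtype.ext (inner_self_eq_zero.1 h2)
  · intro n
    rw [T_df, T_df]
    show ‖(W ^ n) (((‖q‖⁻¹ : ℝ) : ℂ) • ⟨q, hq⟩) - ((‖q‖⁻¹ : ℝ) : ℂ) • ⟨q, hq⟩‖ ≤ _
    rw [map_smul, ← smul_sub, norm_smul, Complex.norm_real, norm_inv, norm_norm]
    have e : ‖(W ^ n) ⟨q, hq⟩ - ⟨q, hq⟩‖ = ‖(r.U ^ n) r.x - r.x‖ := by
      rw [← Submodule.norm_coe, Submodule.coe_sub, hW, hx, map_add, hz p hp]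
      congr 1
      abel
    rw [e]
    refine mul_le_mul_of_nonneg_right ?_ (norm_nonneg _)
    rw [inv_le_comm₀ (by linarith) (by norm_num)]
    linarith

theorem bdd {H : Type u} [NormedAddCommGroup H] [InnerProductSpace ℂ H] (U : H ≃ₗᵢ[ℂ] H) (x : H)
    (Q : Set ℤ) : BddAbove (Set.range fun n : Q => ‖(U ^ (n : ℤ)) x - x‖) := by
  refine ⟨‖x‖ + ‖x‖, ?_⟩
  rintro _ ⟨n, rfl⟩
  refine (norm_sub_le _ _).trans ?_
  rw [LinearIsometryEquiv.norm_map]

theorem not_kazhdan_iff (c : ℤ → Bool) : ¬ Kazhdan.{u} {n | c n = true} ↔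
    c ∈ ⋂ k : ℕ, ⋃ N : ℕ, A.{u} (1 / ((k : ℝ) + 1)) (N + 1) := by
  simp only [Set.mem_iInter, Set.mem_iUnion]
  constructor
  · intro h k
    unfold Kazhdan at h
    push Not at h
    obtain ⟨H, i1, i2, i3, U, x, hx, hs, hy⟩ := h (1 / ((k : ℝ) + 1)) Nat.one_div_pos_of_nat
    let r : Rep.{u} := { H := H, U := U, x := x, hx := hx }
    have ht := av_tendsto r (fun y h => by_contra fun h0 => hy y h0 h)
    have h2 : ∀ᶠ N in atTop, ‖T r (av N)‖ ≤ 1 / 2 := by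
      have := ht.norm
      rw [norm_zero] at this
      exact this.eventually (eventually_le_nhds (by norm_num))
    obtain ⟨N, hN⟩ := eventually_atTop.1 h2
    refine ⟨N, r, fun n hn => ?_, hN _ (by omega)⟩
    rw [T_df]
    exact (le_ciSup (bdd U x {n | c n = true}) ⟨n, hn⟩).trans hs.le
  · rintro h ⟨ε, hε, hK⟩
    obtain ⟨k, hk⟩ := exists_nat_one_div_lt (show 0 < ε / 2 by linarith)
    obtain ⟨N, r, h1, h2⟩ := h k
    obtain ⟨s, hs1, hs2⟩ := strip r (N + 1) (by omega) h2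
    have hb : (⨆ n : {n | c n = true}, ‖(s.U ^ (n : ℤ)) s.x - s.x‖) ≤ 2 * (1 / ((k : ℝ) + 1)) := by
      refine Real.iSup_le (fun n => ?_) (by positivity)
      rw [← T_df]
      exact (hs2 n).trans (by linarith [h1 n n.2])
    obtain ⟨y, hy0, hy⟩ := hK s.H s.U s.x s.hx (by linarith)
    exact hy0 (hs1 y hy)

theorem open_gen : IsOpen {c : ℤ → Bool | Generating {n | c n = true}} := by
  have key : ∀ (Q : Set ℤ) (x : ℤ), x ∈ AddSubgroup.closure Q →
      ∃ s : Finset ℤ, (s : Set ℤ) ⊆ Q ∧ x ∈ AddSubgroup.closure (s : Set ℤ) := by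
    intro Q x hx
    induction hx using AddSubgroup.closure_induction with
    | mem x hx => exact ⟨{x}, by simpa using hx, AddSubgroup.subset_closure (by simp)⟩
    | zero => exact ⟨∅, by simp, zero_mem _⟩
    | add x y _ _ h1 h2 =>
      obtain ⟨s, hs, hx⟩ := h1
      obtain ⟨t, ht, hy⟩ := h2
      refine ⟨s ∪ t, by simp [hs, ht], add_mem ?_ ?_⟩
      · exact AddSubgroup.closure_mono (by simp) hx
      · exact AddSubgroup.closure_mono (by simp) hy
    | neg x _ h =>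
      obtain ⟨s, hs, hx⟩ := h
      exact ⟨s, hs, neg_mem hx⟩
  rw [isOpen_iff_mem_nhds]
  intro c hc
  obtain ⟨s, hs, h1⟩ := key {n | c n = true} 1 (by
    have hc' : AddSubgroup.closure {n | c n = true} = ⊤ := hc
    rw [hc']; trivial)
  have hn : ∀ᶠ d in 𝓝 c, ∀ n ∈ s, d n = c n := by
    rw [Filter.eventually_all_finset]
    intro n _
    have := (continuous_apply n).tendsto c
    rw [nhds_discrete Bool, tendsto_pure] at this
    exact this
  filter_upwards [hn] with d hd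
  have h2 : (1 : ℤ) ∈ AddSubgroup.closure {n | d n = true} :=
    AddSubgroup.closure_mono (fun n hn => (hd n hn).trans (hs hn)) h1
  show AddSubgroup.closure {n | d n = true} = ⊤
  rw [eq_top_iff]
  intro z _
  simpa using AddSubgroup.zsmul_mem _ h2 z

theorem main :
    (∃ C : ℕ → ℕ → Set (ℤ → Bool), (∀ k N, IsClosed (C k N)) ∧
      {c : ℤ → Bool | Kazhdan.{u} {n | c n = true}}ᶜ = ⋂ k, ⋃ N, C k N) ∧
    MeasurableSet[borel (ℤ → Bool)] {c | Kazhdan.{u} {n | c n = true}} ∧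
    MeasurableSet[borel (ℤ → Bool)]
      {c | Generating {n | c n = true} ∧ ¬ Kazhdan.{u} {n | c n = true}} := by
  have e : {c : ℤ → Bool | Kazhdan.{u} {n | c n = true}}ᶜ
      = ⋂ k : ℕ, ⋃ N : ℕ, A.{u} (1 / ((k : ℝ) + 1)) (N + 1) :=
    Set.ext fun c => not_kazhdan_iff c
  have hb : (MeasurableSpace.pi : MeasurableSpace (ℤ → Bool)) = borel (ℤ → Bool) :=
    BorelSpace.measurable_eq
  rw [← hb]
  have hm : MeasurableSet {c : ℤ → Bool | Kazhdan.{u} {n | c n = true}}ᶜ := by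
    rw [e]
    exact MeasurableSet.iInter fun k => MeasurableSet.iUnion fun N => (closed_A _ _).measurableSet
  refine ⟨⟨_, fun k N => closed_A _ _, e⟩, hm.of_compl, ?_⟩
  exact open_gen.measurableSet.inter hm

end Pool.Agent.H.MP_6f1842_lc
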